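import Mathlib

set_option autoImplicit false

open scoped ENNReal InnerProductSpace ComplexConjugate
open Complex MeasureTheory Set Filter Topology

namespace Pool.Agent.Results.MP_4ccfbf_an.SchrodingerRateOptimal

section Defs

variable {H Y : Type} [NormedAddCommGroup H] [InnerProductSpace ℂ H] [CompleteSpace H]
  [NormedAddCommGroup Y] [InnerProductSpace ℂ Y] [CompleteSpace Y]

open Classical in
/-- The value `T x` of an unbounded operator `T` at a point `x` of its domain
(and `0` if `x` is not in the domain; it is only used at points of the domain). -/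
noncomputable def ev (T : H →ₗ.[ℂ] H) (x : H) : H :=
  if h : x ∈ T.domain then T ⟨x, h⟩ else 0

/-- `A` is a nonnegative self-adjoint (possibly unbounded) operator on `H`. -/
structure IsNonnegSelfAdjoint (A : H →ₗ.[ℂ] H) : Prop where
  selfAdjoint : IsSelfAdjoint A
  nonneg : ∀ x : A.domain, 0 ≤ (inner ℂ (x : H) (A x)).re

/-- `A` has compact resolvent: for some `μ`, the operator `A - μ` is a bijection from its domain
onto `H`, with a compact inverse `R`. -/
def HasCompactResolvent (A : H →ₗ.[ℂ] H) : Prop :=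
  ∃ (μ : ℂ) (R : H →L[ℂ] H), IsCompactOperator R ∧
    (∀ x : H, ∃ h : R x ∈ A.domain, A ⟨R x, h⟩ - μ • R x = x) ∧
    (∀ x : A.domain, R (A x - μ • (x : H)) = x)

/-- `S` is the nonnegative self-adjoint square root of `A`, i.e. `A = S ∘ S` with its natural
domain `{x ∈ D(S) : S x ∈ D(S)}`. -/
structure IsSquareRoot (S A : H →ₗ.[ℂ] H) : Prop where
  nonnegSelfAdjoint : IsNonnegSelfAdjoint S
  mem_domain : ∀ x : H, x ∈ A.domain ↔ x ∈ S.domain ∧ ev S x ∈ S.domain
  apply : ∀ x : H, x ∈ A.domain → ev A x = ev S (ev S x)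

/-- `u` is a (mild) solution of the Schrodinger system `u' + i A u = 0`,
i.e. `u` is continuous and `u(t) = u(0) - i A ∫₀ᵗ u(s) ds`. -/
def IsSchrodingerSolution (A : H →ₗ.[ℂ] H) (u : ℝ → H) : Prop :=
  Continuous u ∧ ∀ t : ℝ, (∫ s in (0 : ℝ)..t, u s) ∈ A.domain ∧
    u t = u 0 - Complex.I • ev A (∫ s in (0 : ℝ)..t, u s)

/-- The Schrodinger system with observation `y = B* u` is observable in time `T`. -/
def SchrodingerObservable (A : H →ₗ.[ℂ] H) (B : Y →L[ℂ] H) (T : ℝ) : Prop :=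
  ∃ K : ℝ, 0 < K ∧ ∀ u : ℝ → H, IsSchrodingerSolution A u →
    ‖u 0‖ ^ 2 ≤ K * ∫ t in (0 : ℝ)..T, ‖(ContinuousLinearMap.adjoint B) (u t)‖ ^ 2

/-- `U = (u, v)` is a classical solution on `[0, ∞)` of `U' = 𝒜 U`, where
`𝒜 (u, v) = (v, - A u - B B* v)` on `D(A^{1/2}) × H`, with `D(𝒜) = D(A) × D(A^{1/2})`;
here `S = A^{1/2}`.  That is, `u(t) ∈ D(A)`, `v(t) ∈ D(S)`, and the derivative is taken in
the norm of `D(A^{1/2}) × H`. -/
structure IsDampedWaveSolution (A S : H →ₗ.[ℂ] H) (B : Y →L[ℂ] H) (u v : ℝ → H) : Prop where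
  mem_A : ∀ t : ℝ, 0 ≤ t → u t ∈ A.domain
  mem_S : ∀ t : ℝ, 0 ≤ t → v t ∈ S.domain
  deriv_u : ∀ t : ℝ, 0 ≤ t → HasDerivWithinAt u (v t) (Ici 0) t
  deriv_Su : ∀ t : ℝ, 0 ≤ t →
    HasDerivWithinAt (fun s => ev S (u s)) (ev S (v t)) (Ici 0) t
  deriv_v : ∀ t : ℝ, 0 ≤ t →
    HasDerivWithinAt v (- ev A (u t) - B ((ContinuousLinearMap.adjoint B) (v t))) (Ici 0) t

/-- The seminorm `|(u, v)| = (‖A^{1/2} u‖² + ‖v‖²)^{1/2}`, with `S = A^{1/2}`. -/
noncomputable def energySeminorm (S : H →ₗ.[ℂ] H) (u v : H) : ℝ :=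
  Real.sqrt (‖ev S u‖ ^ 2 + ‖v‖ ^ 2)

/-- The norm `‖(u, v)‖ = (‖(A + I)^{1/2} u‖² + ‖v‖²)^{1/2} = (‖A^{1/2} u‖² + ‖u‖² + ‖v‖²)^{1/2}`
of `D(A^{1/2}) × H`, with `S = A^{1/2}`. -/
noncomputable def energyNorm (S : H →ₗ.[ℂ] H) (u v : H) : ℝ :=
  Real.sqrt (‖ev S u‖ ^ 2 + ‖u‖ ^ 2 + ‖v‖ ^ 2)

/-- The graph norm `‖U‖ + ‖𝒜 U‖` of `U = (u, v) ∈ D(𝒜)`. -/
noncomputable def graphNorm (A S : H →ₗ.[ℂ] H) (B : Y →L[ℂ] H) (u v : H) : ℝ :=
  energyNorm S u v + energyNorm S v (- ev A u - B ((ContinuousLinearMap.adjoint B) v))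

/-- The damped wave system `u'' + A u + B B* u' = 0` is stable at rate `f(t)`. -/
def StableAtRate (A S : H →ₗ.[ℂ] H) (B : Y →L[ℂ] H) (f : ℝ → ℝ) : Prop :=
  ∃ C : ℝ, ∀ u v : ℝ → H, IsDampedWaveSolution A S B u v →
    ∀ t : ℝ, 0 < t → energySeminorm S (u t) (v t) ≤ C * f t * graphNorm A S B (u 0) (v 0)

end Defs

/-! ### Diagonal operators on `ℓ²` -/

section Diag

variable {ι : Type}

/-- The complex Hilbert space `ℓ²(ι)`. -/
abbrev L2 (ι : Type) : Type := lp (fun _ : ι => ℂ) 2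

lemma memℓp_two_iff (f : ι → ℂ) : Memℓp f 2 ↔ Summable (fun i => ‖f i‖ ^ 2) := by
  rw [memℓp_gen_iff (by norm_num)]
  simp

lemma norm_sq_eq_tsum (x : L2 ι) : ‖x‖ ^ 2 = ∑' i, ‖x i‖ ^ 2 := by
  have := lp.norm_rpow_eq_tsum (p := 2) (by norm_num) x
  simpa using this

lemma hasSum_norm_sq (x : L2 ι) : HasSum (fun i => ‖x i‖ ^ 2) (‖x‖ ^ 2) := by
  have := lp.hasSum_norm (p := 2) (by norm_num) x
  simpa using this

/-- The diagonal operator with real entries `a i`, with its maximal domain. -/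
noncomputable def diagPMap (a : ι → ℝ) : L2 ι →ₗ.[ℂ] L2 ι where
  domain :=
    { carrier := {x | Memℓp (fun i => (a i : ℂ) * x i) 2}
      add_mem' := by
        intro x y hx hy
        have := Memℓp.add hx hy
        simp only [Set.mem_ofPred_eq] at *
        convert this using 1
        ext i
        simp [mul_add]
      zero_mem' := by
        simp only [Set.mem_ofPred_eq]
        have : (fun i => (a i : ℂ) * (0 : L2 ι) i) = 0 := by
          ext i; simp
        rw [this]
        exact zero_memℓp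
      smul_mem' := by
        intro c x hx
        have := Memℓp.const_smul hx c
        simp only [Set.mem_ofPred_eq] at *
        convert this using 1
        ext i
        simp [smul_eq_mul]
        ring }
  toFun :=
    { toFun := fun x => ⟨fun i => (a i : ℂ) * x.1 i, x.2⟩
      map_add' := by
        intro x y
        ext i
        exact mul_add _ _ _
      map_smul' := by
        intro c x
        ext i
        simp
        ring }

lemma mem_diagPMap_domain (a : ι → ℝ) (x : L2 ι) :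
    x ∈ (diagPMap a).domain ↔ Memℓp (fun i => (a i : ℂ) * x i) 2 := Iff.rfl

lemma diagPMap_apply (a : ι → ℝ) (x : (diagPMap a).domain) (i : ι) :
    (diagPMap a x) i = (a i : ℂ) * (x : L2 ι) i := rfl

variable [DecidableEq ι]

lemma single_mem_diagPMap_domain (a : ι → ℝ) (i : ι) (c : ℂ) :
    (lp.single 2 i c : L2 ι) ∈ (diagPMap a).domain := by
  rw [mem_diagPMap_domain]
  have : (fun j => (a j : ℂ) * (lp.single 2 i c : L2 ι) j)
      = ((lp.single 2 i ((a i : ℂ) * c) : L2 ι) : ι → ℂ) := by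
    ext j
    by_cases h : j = i
    · subst h; simp
    · simp [lp.single_apply_ne, h]
  rw [this]
  exact lp.memℓp _

lemma diagPMap_single (a : ι → ℝ) (i : ι) (c : ℂ) :
    diagPMap a ⟨lp.single 2 i c, single_mem_diagPMap_domain a i c⟩
      = lp.single 2 i ((a i : ℂ) * c) := by
  ext j
  rw [diagPMap_apply]
  by_cases h : j = i
  · subst h; simp
  · simp [lp.single_apply_ne, h]

lemma dense_diagPMap_domain (a : ι → ℝ) : Dense ((diagPMap a).domain : Set (L2 ι)) := by
  intro x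
  have h := lp.hasSum_single (p := 2) (by norm_num) x
  refine mem_closure_of_tendsto h ?_
  refine Filter.Eventually.of_forall (fun s => ?_)
  exact Submodule.sum_mem _ (fun i _ => single_mem_diagPMap_domain a i _)

lemma diagPMap_isFormalAdjoint (a : ι → ℝ) :
    (diagPMap a).IsFormalAdjoint (diagPMap a) := by
  intro x y
  rw [lp.inner_eq_tsum, lp.inner_eq_tsum]
  congr 1
  ext i
  rw [diagPMap_apply, diagPMap_apply]
  simp
  ring

lemma diagPMap_isSelfAdjoint (a : ι → ℝ) : IsSelfAdjoint (diagPMap a) := by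
  rw [LinearPMap.isSelfAdjoint_def]
  apply le_antisymm
  · have key : ∀ y : (LinearPMap.adjoint (diagPMap a)).domain, ∀ i : ι,
        (LinearPMap.adjoint (diagPMap a) y) i = (a i : ℂ) * (y : L2 ι) i := by
      intro y i
      have h := LinearPMap.adjoint_isFormalAdjoint (dense_diagPMap_domain a) y
        ⟨lp.single 2 i 1, single_mem_diagPMap_domain a i 1⟩
      rw [diagPMap_single] at h
      rw [lp.inner_single_right, lp.inner_single_right] at h
      simp only [RCLike.inner_apply] at h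
      have h' := congrArg (starRingEnd ℂ) h
      simp at h'
      rw [h']
    refine ⟨?_, ?_⟩
    · intro y hy
      rw [mem_diagPMap_domain]
      have : (fun i => (a i : ℂ) * y i)
          = ((LinearPMap.adjoint (diagPMap a) ⟨y, hy⟩ : L2 ι) : ι → ℂ) := by
        ext i
        rw [key]
      rw [this]
      exact lp.memℓp _
    · intro x y hxy
      ext i
      rw [key, diagPMap_apply, hxy]
  · exact LinearPMap.IsFormalAdjoint.le_adjoint (dense_diagPMap_domain a)
      (diagPMap_isFormalAdjoint a)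

lemma diagPMap_nonneg (a : ι → ℝ) (ha : ∀ i, 0 ≤ a i) (x : (diagPMap a).domain) :
    0 ≤ (inner ℂ (x : L2 ι) (diagPMap a x)).re := by
  rw [lp.inner_eq_tsum]
  have hs : Summable (fun i => inner ℂ ((x : L2 ι) i) ((diagPMap a x) i)) :=
    lp.summable_inner (x : L2 ι) (diagPMap a x)
  rw [Complex.re_tsum hs]
  apply tsum_nonneg
  intro i
  rw [diagPMap_apply]
  have : (inner ℂ ((x : L2 ι) i) ((a i : ℂ) * (x : L2 ι) i)) = ((a i * ‖(x : L2 ι) i‖ ^ 2 : ℝ) : ℂ) := by
    simp only [RCLike.inner_apply]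
    rw [mul_assoc, Complex.mul_conj]
    rw [Complex.normSq_eq_norm_sq]
    push_cast
    ring
  rw [this, Complex.ofReal_re]
  have := ha i
  positivity

lemma isNonnegSelfAdjoint_diagPMap (a : ι → ℝ) (ha : ∀ i, 0 ≤ a i) :
    IsNonnegSelfAdjoint (diagPMap a) :=
  ⟨diagPMap_isSelfAdjoint a, diagPMap_nonneg a ha⟩

lemma ev_diagPMap (a : ι → ℝ) (x : L2 ι) (hx : x ∈ (diagPMap a).domain) (i : ι) :
    ev (diagPMap a) x i = (a i : ℂ) * x i := by
  rw [ev, dif_pos hx, diagPMap_apply]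

lemma isSquareRoot_diagPMap (a : ι → ℝ) (ha : ∀ i, 0 ≤ a i) :
    IsSquareRoot (diagPMap (fun i => Real.sqrt (a i))) (diagPMap a) := by
  have hmem : ∀ x : L2 ι, x ∈ (diagPMap a).domain →
      x ∈ (diagPMap (fun i => Real.sqrt (a i))).domain := by
    intro x hx
    rw [mem_diagPMap_domain, memℓp_two_iff] at *
    have hx0 : Summable (fun i => ‖x i‖ ^ 2) := (memℓp_two_iff _).1 (lp.memℓp x)
    refine Summable.of_nonneg_of_le (fun i => by positivity) (fun i => ?_) (hx.add hx0)
    have h1 := ha i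
    have h2 := Real.sq_sqrt h1
    simp only [norm_mul, Complex.norm_real, Real.norm_eq_abs, abs_of_nonneg h1,
      abs_of_nonneg (Real.sqrt_nonneg (a i)), mul_pow]
    rw [h2]
    have h3 : 0 ≤ ‖x i‖ ^ 2 := by positivity
    nlinarith [sq_nonneg (a i - 1), mul_nonneg (add_nonneg (sq_nonneg (a i)) zero_le_one) h3,
      mul_nonneg (sq_nonneg (a i - 1)) h3, mul_nonneg h1 h3]
  refine ⟨isNonnegSelfAdjoint_diagPMap _ (fun i => Real.sqrt_nonneg _), ?_, ?_⟩
  · intro x
    constructor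
    · intro hx
      have h1 := hmem x hx
      refine ⟨h1, ?_⟩
      rw [mem_diagPMap_domain]
      rw [mem_diagPMap_domain] at hx
      convert hx using 1
      ext i
      rw [ev_diagPMap _ _ h1, ← mul_assoc, ← Complex.ofReal_mul, Real.mul_self_sqrt (ha i)]
    · rintro ⟨h1, h2⟩
      rw [mem_diagPMap_domain] at h2 ⊢
      convert h2 using 1
      ext i
      rw [ev_diagPMap _ _ h1, ← mul_assoc, ← Complex.ofReal_mul, Real.mul_self_sqrt (ha i)]
  · intro x hx
    have h1 := hmem x hx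
    have h2 : ev (diagPMap (fun i => Real.sqrt (a i))) x ∈
        (diagPMap (fun i => Real.sqrt (a i))).domain := by
      rw [mem_diagPMap_domain]
      rw [mem_diagPMap_domain] at hx
      convert hx using 1
      ext i
      rw [ev_diagPMap _ _ h1, ← mul_assoc, ← Complex.ofReal_mul, Real.mul_self_sqrt (ha i)]
    ext i
    rw [ev_diagPMap _ _ hx, ev_diagPMap _ _ h2, ev_diagPMap _ _ h1, ← mul_assoc,
      ← Complex.ofReal_mul, Real.mul_self_sqrt (ha i)]

/-- Bounded diagonal operator. -/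
noncomputable def diagCLM (r : ι → ℂ) (M : ℝ) (hM : 0 ≤ M) (hr : ∀ i, ‖r i‖ ≤ M) :
    L2 ι →L[ℂ] L2 ι :=
  LinearMap.mkContinuous
    { toFun := fun x => ⟨fun i => r i * x i, by
        change Memℓp _ 2
        rw [memℓp_two_iff]
        have hx0 : Summable (fun i => ‖x i‖ ^ 2) := (memℓp_two_iff _).1 (lp.memℓp x)
        refine Summable.of_nonneg_of_le (fun i => by positivity) (fun i => ?_)
          (hx0.mul_left (M ^ 2))
        rw [norm_mul, mul_pow]
        gcongr
        exact hr i⟩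
      map_add' := by
        intro x y
        ext i
        exact mul_add _ _ _
      map_smul' := by
        intro c x
        ext i
        simp
        ring } M (by
      intro x
      have h1 := hasSum_norm_sq x
      refine lp.norm_le_of_forall_sum_le (p := 2) (by norm_num) (by positivity) ?_
      intro s
      simp only [ENNReal.toReal_ofNat, Real.rpow_ofNat]
      calc ∑ i ∈ s, ‖r i * x i‖ ^ 2 ≤ ∑ i ∈ s, M ^ 2 * ‖x i‖ ^ 2 := by
            refine Finset.sum_le_sum (fun i _ => ?_)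
            rw [norm_mul, mul_pow]
            gcongr
            exact hr i
        _ = M ^ 2 * ∑ i ∈ s, ‖x i‖ ^ 2 := by rw [Finset.mul_sum]
        _ ≤ M ^ 2 * ‖x‖ ^ 2 := by
            gcongr
            exact sum_le_hasSum s (fun i _ => by positivity) h1
        _ = (M * ‖x‖) ^ 2 := by ring)

lemma diagCLM_apply (r : ι → ℂ) (M : ℝ) (hM : 0 ≤ M) (hr : ∀ i, ‖r i‖ ≤ M) (x : L2 ι) (i : ι) :
    diagCLM r M hM hr x i = r i * x i := rfl

lemma norm_diagCLM_le (r : ι → ℂ) (M : ℝ) (hM : 0 ≤ M) (hr : ∀ i, ‖r i‖ ≤ M) :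
    ‖diagCLM r M hM hr‖ ≤ M := LinearMap.mkContinuous_norm_le _ hM _

lemma diagCLM_isCompact (r : ι → ℂ) (M : ℝ) (hM : 0 ≤ M) (hr : ∀ i, ‖r i‖ ≤ M)
    (h0 : ∀ ε : ℝ, 0 < ε → Set.Finite {i | ε < ‖r i‖}) :
    IsCompactOperator (diagCLM r M hM hr) := by
  classical
  let F : Finset ι → L2 ι →L[ℂ] L2 ι := fun s =>
    ∑ i ∈ s, (lp.singleContinuousLinearMap ℂ (fun _ : ι => ℂ) 2 i).comp
      ((r i) • (lp.evalCLM ℂ (fun _ : ι => ℂ) 2 i))
  have hF : ∀ s, IsCompactOperator (F s) := by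
    intro s
    have : F s ∈ compactOperator (RingHom.id ℂ) (L2 ι) (L2 ι) := by
      refine Submodule.sum_mem _ (fun i _ => ?_)
      change IsCompactOperator _
      exact (isCompactOperator_of_locallyCompactSpace_rng
        (lp.singleContinuousLinearMap ℂ (fun _ : ι => ℂ) 2 i)).comp_clm
          ((r i) • (lp.evalCLM ℂ (fun _ : ι => ℂ) 2 i))
    exact this
  have hFa : ∀ s (x : L2 ι) j, (F s x) j = if j ∈ s then r j * x j else 0 := by
    intro s x j
    simp only [F, _root_.sum_apply, ContinuousLinearMap.comp_apply,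
      lp.singleContinuousLinearMap_apply, _root_.smul_apply, lp.coeFn_sum,
      Finset.sum_apply]
    have : ∀ i ∈ s, (lp.single 2 i (r i • (lp.evalCLM ℂ (fun _ : ι => ℂ) 2 i) x) : L2 ι) j
        = if j = i then r j * x j else 0 := by
      intro i _
      by_cases h : j = i
      · subst h
        simp
        left
        rfl
      · simp [h]
    rw [Finset.sum_congr rfl this]
    simp
  refine isCompactOperator_of_tendsto (l := (atTop : Filter (Finset ι))) (F := F) ?_
    (Filter.Eventually.of_forall hF)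
  rw [Metric.tendsto_atTop]
  intro ε hε
  refine ⟨(h0 (ε / 2) (by positivity)).toFinset, fun s hs => ?_⟩
  rw [dist_eq_norm, norm_sub_rev]
  have hb : ∀ i, ‖(if i ∈ s then (0 : ℂ) else r i)‖ ≤ ε / 2 := by
    intro i
    by_cases h : i ∈ s
    · simp [h]; positivity
    · simp only [h, if_false]
      by_contra hc
      push Not at hc
      exact h (hs (by simpa using hc))
  have heq : diagCLM r M hM hr - F s
      = diagCLM (fun i => if i ∈ s then (0 : ℂ) else r i) (ε / 2) (by positivity) hb := by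
    ext x j
    rw [_root_.sub_apply, lp.coeFn_sub, Pi.sub_apply, diagCLM_apply, hFa,
      diagCLM_apply]
    by_cases h : j ∈ s <;> simp [h]
  rw [heq]
  exact lt_of_le_of_lt (norm_diagCLM_le _ _ _ _) (by linarith)

lemma hasCompactResolvent_diagPMap (a : ι → ℝ) (ha : ∀ i, 0 ≤ a i)
    (hinf : ∀ M : ℝ, Set.Finite {i | a i < M}) : HasCompactResolvent (diagPMap a) := by
  have hr : ∀ i, ‖((a i + 1 : ℝ) : ℂ)⁻¹‖ ≤ 1 := by
    intro i
    have := ha i
    rw [norm_inv, Complex.norm_real, Real.norm_eq_abs, abs_of_nonneg (by positivity)]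
    exact inv_le_one_of_one_le₀ (by linarith)
  have hne : ∀ i, ((a i + 1 : ℝ) : ℂ) ≠ 0 := by
    intro i
    have := ha i
    exact_mod_cast (by positivity : a i + 1 ≠ 0)
  refine ⟨-1, diagCLM (fun i => ((a i + 1 : ℝ) : ℂ)⁻¹) 1 zero_le_one hr, ?_, ?_, ?_⟩
  · apply diagCLM_isCompact
    intro ε hε
    refine (hinf (1 / ε)).subset ?_
    intro i hi
    simp only [Set.mem_ofPred_eq] at *
    have := ha i
    rw [norm_inv, Complex.norm_real, Real.norm_eq_abs, abs_of_nonneg (by positivity)] at hi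
    rw [lt_div_iff₀ hε]
    have h2 : ε * (a i + 1) < 1 := by
      have := mul_lt_mul_of_pos_right hi (by positivity : 0 < a i + 1)
      rwa [inv_mul_cancel₀ (by positivity)] at this
    nlinarith
  · intro x
    have hmem : (diagCLM (fun i => ((a i + 1 : ℝ) : ℂ)⁻¹) 1 zero_le_one hr x)
        ∈ (diagPMap a).domain := by
      rw [mem_diagPMap_domain, memℓp_two_iff]
      have hx0 : Summable (fun i => ‖x i‖ ^ 2) := (memℓp_two_iff _).1 (lp.memℓp x)
      refine Summable.of_nonneg_of_le (fun i => by positivity) (fun i => ?_) hx0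
      rw [diagCLM_apply, ← mul_assoc, norm_mul, mul_pow]
      have h1 : ‖(a i : ℂ) * ((a i + 1 : ℝ) : ℂ)⁻¹‖ ≤ 1 := by
        have := ha i
        rw [norm_mul, norm_inv, Complex.norm_real, Complex.norm_real, Real.norm_eq_abs,
          Real.norm_eq_abs, abs_of_nonneg this, abs_of_nonneg (by positivity)]
        rw [← div_eq_mul_inv, div_le_one (by positivity)]
        linarith
      have h2 : ‖(a i : ℂ) * ((a i + 1 : ℝ) : ℂ)⁻¹‖ ^ 2 ≤ 1 := by
        apply pow_le_one₀ (norm_nonneg _) h1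
      calc _ ≤ 1 * ‖x i‖ ^ 2 := by gcongr
        _ = _ := one_mul _
    refine ⟨hmem, ?_⟩
    ext i
    rw [lp.coeFn_sub, Pi.sub_apply, diagPMap_apply, lp.coeFn_smul, Pi.smul_apply, diagCLM_apply]
    have := hne i
    push_cast at *
    simp only [smul_eq_mul]
    field_simp
    ring
  · intro x
    ext i
    rw [diagCLM_apply, lp.coeFn_sub, Pi.sub_apply, diagPMap_apply, lp.coeFn_smul, Pi.smul_apply]
    have := hne i
    push_cast at *
    simp only [smul_eq_mul]
    field_simp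
    ring

end Diag

/-! ### Reindexing -/

section Reindex

variable {ι κ : Type}

/-- Restriction along an injective map `σ : κ → ι`. -/
noncomputable def compCLM (σ : κ → ι) (hσ : Function.Injective σ) : L2 ι →L[ℂ] L2 κ :=
  LinearMap.mkContinuous
    { toFun := fun x => ⟨fun k => x (σ k), by
        change Memℓp _ 2
        rw [memℓp_two_iff]
        have hx0 : Summable (fun i => ‖x i‖ ^ 2) := (memℓp_two_iff _).1 (lp.memℓp x)
        exact hx0.comp_injective hσ⟩
      map_add' := by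
        intro x y
        ext i
        rfl
      map_smul' := by
        intro c x
        ext i
        rfl } 1 (by
      intro x
      have h1 := hasSum_norm_sq x
      refine lp.norm_le_of_forall_sum_le (p := 2) (by norm_num) (by positivity) ?_
      intro s
      simp only [ENNReal.toReal_ofNat, Real.rpow_ofNat]
      calc ∑ i ∈ s, ‖x (σ i)‖ ^ 2 = ∑ i ∈ s.map ⟨σ, hσ⟩, ‖x i‖ ^ 2 := by
            rw [Finset.sum_map]; rfl
        _ ≤ ‖x‖ ^ 2 := sum_le_hasSum _ (fun i _ => by positivity) h1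
        _ = (1 * ‖x‖) ^ 2 := by ring)

lemma compCLM_apply (σ : κ → ι) (hσ : Function.Injective σ) (x : L2 ι) (k : κ) :
    compCLM σ hσ x k = x (σ k) := rfl

end Reindex

/-! ### The system -/

section System

/-- `N = n + 1`. -/
noncomputable def NN (n : ℕ) : ℝ := (n : ℝ) + 1

lemma NN_ge (n : ℕ) : 1 ≤ NN n := by
  unfold NN
  have : (0 : ℝ) ≤ n := Nat.cast_nonneg n
  linarith

/-- sign attached to a Boolean -/
noncomputable def sg (b : Bool) : ℝ := if b then 1 else -1

/-- Entries of `A`: `N² ± 1`. -/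
noncomputable def aa (i : ℕ × Bool) : ℝ := (NN i.1) ^ 2 + sg i.2

/-- Eigenvalue. -/
noncomputable def zz (n : ℕ) : ℂ :=
  ⟨-1 / (4 * (NN n) ^ 2), Real.sqrt ((NN n) ^ 2 - 1 / (16 * (NN n) ^ 4))⟩

/-- Observation weights. -/
noncomputable def ww (i : ℕ × Bool) : ℂ :=
  (1 / 2 - (sg i.2 : ℂ) * conj (zz i.1)) / (NN i.1 : ℂ)

lemma sg_sq (b : Bool) : sg b ^ 2 = 1 := by cases b <;> simp [sg]

lemma aa_nonneg (i : ℕ × Bool) : 0 ≤ aa i := by
  have h := NN_ge i.1
  have : sg i.2 ≥ -1 := by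
    unfold sg; split_ifs <;> norm_num
  unfold aa
  nlinarith

lemma zz_re (n : ℕ) : (zz n).re = -1 / (4 * (NN n) ^ 2) := rfl

lemma zz_normSq (n : ℕ) : Complex.normSq (zz n) = (NN n) ^ 2 := by
  have h := NN_ge n
  have h0 : 0 ≤ (NN n) ^ 2 - 1 / (16 * (NN n) ^ 4) := by
    have h1 : 1 ≤ (NN n) ^ 2 := by nlinarith
    have h2 : 1 ≤ (NN n) ^ 4 := by nlinarith
    have h3 : 1 / (16 * (NN n) ^ 4) ≤ 1 := by
      rw [div_le_one (by positivity)]
      linarith
    linarith
  rw [Complex.normSq_apply]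
  simp only [zz]
  rw [Real.mul_self_sqrt h0]
  field_simp
  ring

lemma zz_norm (n : ℕ) : ‖zz n‖ = NN n := by
  have h := NN_ge n
  have h1 := zz_normSq n
  rw [Complex.normSq_eq_norm_sq] at h1
  have := Real.sqrt_sq (norm_nonneg (zz n))
  rw [← this, h1, Real.sqrt_sq (by linarith)]

lemma ww_normSq (i : ℕ × Bool) : 1 ≤ ‖ww i‖ ^ 2 ∧ ‖ww i‖ ^ 2 ≤ 4 := by
  have h := NN_ge i.1
  have hz := zz_normSq i.1
  rw [Complex.normSq_apply] at hz
  have hre := zz_re i.1
  have key : ‖ww i‖ ^ 2 = (1 / 4 - sg i.2 * (zz i.1).re + (NN i.1) ^ 2) / (NN i.1) ^ 2 := by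
    rw [← Complex.normSq_eq_norm_sq, ww, map_div₀, Complex.normSq_apply, Complex.normSq_apply]
    have hs := sg_sq i.2
    simp
    have hnum : (2⁻¹ - sg i.2 * (zz i.1).re) * (2⁻¹ - sg i.2 * (zz i.1).re) + sg i.2 * (zz i.1).im * (sg i.2 * (zz i.1).im)
        = 4⁻¹ - sg i.2 * (zz i.1).re + NN i.1 ^ 2 := by
      linear_combination ((zz i.1).re ^ 2 + (zz i.1).im ^ 2) * hs + hz
    rw [hnum, ← sq]
  have h4 : |sg i.2 * (zz i.1).re| ≤ 1 / 4 := by
    rw [abs_mul]
    have h5 : |sg i.2| = 1 := by unfold sg; split_ifs <;> simp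
    rw [h5, one_mul, hre, abs_div, abs_neg, abs_one, abs_of_nonneg (by positivity)]
    rw [div_le_div_iff₀ (by positivity) (by norm_num)]
    nlinarith
  have h6 := abs_le.1 h4
  rw [key]
  constructor
  · rw [le_div_iff₀ (by positivity)]
    linarith [h6.1, h6.2]
  · rw [div_le_iff₀ (by positivity)]
    nlinarith [h6.1, h6.2]

lemma ww_norm_le (i : ℕ × Bool) : ‖ww i‖ ≤ 2 := by
  have h := (ww_normSq i).2
  nlinarith [norm_nonneg (ww i)]

lemma ww_sum (n : ℕ) : conj (ww (n, true)) + conj (ww (n, false)) = 1 / (NN n : ℂ) := by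
  have h2 : (starRingEnd ℂ) (2 : ℂ) = 2 := Complex.conj_ofNat 2
  simp [ww, sg, h2]
  ring

/-- The key eigenvalue identity. -/
lemma eigen (n : ℕ) (b : Bool) :
    (zz n) ^ 2 + (aa (n, b) : ℂ) + zz n * (ww (n, b) * (1 / (NN n : ℂ))) = 0 := by
  have h := NN_ge n
  have hN : (NN n : ℂ) ≠ 0 := by exact_mod_cast (by linarith : NN n ≠ 0)
  have h1 : zz n * conj (zz n) = ((NN n) ^ 2 : ℝ) := by
    rw [Complex.mul_conj, zz_normSq]
  have h2 : zz n + conj (zz n) = ((-1 / (2 * (NN n) ^ 2) : ℝ) : ℂ) := by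
    rw [Complex.add_conj, zz_re]
    congr 1
    field_simp
    ring
  push_cast at h1 h2
  have h3 : (zz n) ^ 2 = zz n * (-1 / (2 * (NN n : ℂ) ^ 2)) - (NN n : ℂ) ^ 2 := by
    linear_combination (zz n) * h2 - h1
  simp only [aa, ww]
  push_cast
  rw [h3]
  field_simp
  linear_combination (-2 * (sg b : ℂ)) * h1

lemma inj_mk (b : Bool) : Function.Injective (fun n : ℕ => (n, b)) := by
  intro m n h
  simpa using h

/-- The observation operator `B* : H → Y`. -/
noncomputable def CC : L2 (ℕ × Bool) →L[ℂ] L2 ℕ :=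
  ((compCLM (fun n : ℕ => (n, true)) (inj_mk true)) +
    (compCLM (fun n : ℕ => (n, false)) (inj_mk false))).comp
    (diagCLM (fun i => conj (ww i)) 2 zero_le_two
      (fun i => by rw [RCLike.norm_conj]; exact ww_norm_le i))

lemma CC_apply (x : L2 (ℕ × Bool)) (n : ℕ) :
    CC x n = conj (ww (n, true)) * x (n, true) + conj (ww (n, false)) * x (n, false) := rfl

/-- The control operator `B : Y → H`. -/
noncomputable def BB : L2 ℕ →L[ℂ] L2 (ℕ × Bool) := ContinuousLinearMap.adjoint CC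

lemma adjoint_BB : ContinuousLinearMap.adjoint BB = CC :=
  ContinuousLinearMap.adjoint_adjoint CC

lemma CC_single (i : ℕ × Bool) :
    CC (lp.single 2 i (1 : ℂ)) = lp.single 2 i.1 (conj (ww i)) := by
  obtain ⟨n, b⟩ := i
  ext m
  rw [CC_apply]
  by_cases h : m = n
  · subst h
    cases b <;> simp
  · cases b <;> simp [h]

lemma BB_apply (y : L2 ℕ) (i : ℕ × Bool) : BB y i = ww i * y i.1 := by
  have h := ContinuousLinearMap.adjoint_inner_right CC (lp.single 2 i (1 : ℂ)) y
  rw [CC_single, lp.inner_single_left, lp.inner_single_left] at h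
  simp at h
  change (ContinuousLinearMap.adjoint CC y) i = _
  rw [h]
  ring

/-- A vector supported on block `n`. -/
noncomputable def pv (n : ℕ) (α β : ℂ) : L2 (ℕ × Bool) :=
  lp.single 2 (n, true) α + lp.single 2 (n, false) β

lemma pv_apply_true (n : ℕ) (α β : ℂ) : pv n α β (n, true) = α := by
  simp [pv]

lemma pv_apply_false (n : ℕ) (α β : ℂ) : pv n α β (n, false) = β := by
  simp [pv]

lemma pv_apply_ne (n : ℕ) (α β : ℂ) (m : ℕ) (b : Bool) (h : m ≠ n) : pv n α β (m, b) = 0 := by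
  simp [pv, h]

lemma pv_ext (n : ℕ) (α β : ℂ) (x : L2 (ℕ × Bool)) (ht : x (n, true) = α)
    (hf : x (n, false) = β) (hne : ∀ m b, m ≠ n → x (m, b) = 0) : x = pv n α β := by
  ext ⟨m, b⟩
  by_cases h : m = n
  · subst h
    cases b
    · rw [hf, pv_apply_false]
    · rw [ht, pv_apply_true]
  · rw [hne m b h, pv_apply_ne n α β m b h]

lemma pv_mem (a : ℕ × Bool → ℝ) (n : ℕ) (α β : ℂ) : pv n α β ∈ (diagPMap a).domain :=
  Submodule.add_mem _ (single_mem_diagPMap_domain a _ _) (single_mem_diagPMap_domain a _ _)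

lemma ev_pv (a : ℕ × Bool → ℝ) (n : ℕ) (α β : ℂ) :
    ev (diagPMap a) (pv n α β) = pv n ((a (n, true) : ℂ) * α) ((a (n, false) : ℂ) * β) := by
  apply pv_ext
  · rw [ev_diagPMap _ _ (pv_mem a n α β), pv_apply_true]
  · rw [ev_diagPMap _ _ (pv_mem a n α β), pv_apply_false]
  · intro m b h
    rw [ev_diagPMap _ _ (pv_mem a n α β), pv_apply_ne n α β m b h, mul_zero]

lemma smul_pv (c : ℂ) (n : ℕ) (α β : ℂ) : c • pv n α β = pv n (c * α) (c * β) := by
  apply pv_ext
  · rw [lp.coeFn_smul, Pi.smul_apply, pv_apply_true, smul_eq_mul]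
  · rw [lp.coeFn_smul, Pi.smul_apply, pv_apply_false, smul_eq_mul]
  · intro m b h
    rw [lp.coeFn_smul, Pi.smul_apply, pv_apply_ne n α β m b h, smul_zero]

lemma norm_pv_sq (n : ℕ) (α β : ℂ) : ‖pv n α β‖ ^ 2 = ‖α‖ ^ 2 + ‖β‖ ^ 2 := by
  have h := hasSum_norm_sq (pv n α β)
  have h2 : HasSum (fun i => ‖pv n α β i‖ ^ 2)
      (∑ i ∈ ({(n, true), (n, false)} : Finset (ℕ × Bool)), ‖pv n α β i‖ ^ 2) := by
    apply hasSum_sum_of_ne_finset_zero
    rintro ⟨m, b⟩ hi
    have hm : m ≠ n := by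
      rintro rfl
      cases b <;> simp at hi
    rw [pv_apply_ne n α β m b hm]
    simp
  have h3 := h.unique h2
  rw [h3, Finset.sum_pair (by simp), pv_apply_true, pv_apply_false]

lemma BBCC_pv (n : ℕ) : BB (CC (pv n 1 1)) =
    pv n (ww (n, true) * (1 / (NN n : ℂ))) (ww (n, false) * (1 / (NN n : ℂ))) := by
  have hs := ww_sum n
  have hC : CC (pv n 1 1) n = 1 / (NN n : ℂ) := by
    rw [CC_apply, pv_apply_true, pv_apply_false, mul_one, mul_one, hs]
  apply pv_ext
  · rw [BB_apply, hC]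
  · rw [BB_apply, hC]
  · intro m b h
    rw [BB_apply, CC_apply, pv_apply_ne n _ _ m _ h, pv_apply_ne n _ _ m _ h]
    simp

/-! ### Observability of the Schrodinger system -/

lemma coord_solution (a : ℕ × Bool → ℝ) (u : ℝ → L2 (ℕ × Bool))
    (hu : IsSchrodingerSolution (diagPMap a) u) (i : ℕ × Bool) (t : ℝ) :
    u t i = Complex.exp (-(Complex.I * (a i : ℂ) * t)) * u 0 i := by
  obtain ⟨hc, h⟩ := hu
  let E : L2 (ℕ × Bool) →L[ℂ] ℂ := lp.evalCLM ℂ (fun _ : ℕ × Bool => ℂ) 2 i
  have hE : ∀ x, E x = x i := fun x => rfl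
  have hci : Continuous (fun s => u s i) := E.continuous.comp hc
  have hint : ∀ t : ℝ, (∫ s in (0 : ℝ)..t, u s) i = ∫ s in (0 : ℝ)..t, u s i := by
    intro t
    have := E.intervalIntegral_comp_comm (hc.intervalIntegrable (μ := volume) 0 t)
    rw [← hE, ← this]
    rfl
  have heq : ∀ t : ℝ, u t i = u 0 i - Complex.I * ((a i : ℂ) * ∫ s in (0 : ℝ)..t, u s i) := by
    intro t
    obtain ⟨hm, ht⟩ := h t
    have := congrArg (fun x : L2 (ℕ × Bool) => x i) ht
    simp only at this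
    rw [this, lp.coeFn_sub, Pi.sub_apply, lp.coeFn_smul, Pi.smul_apply, ev_diagPMap _ _ hm,
      smul_eq_mul]
    exact congrArg (fun w => u 0 i - Complex.I * ((a i : ℂ) * w)) (hint t)
  have hd : ∀ t : ℝ, HasDerivAt (fun s => u s i) (-(Complex.I * ((a i : ℂ) * u t i))) t := by
    intro t
    have h1 : HasDerivAt (fun t => ∫ s in (0 : ℝ)..t, u s i) (u t i) t :=
      intervalIntegral.integral_hasDerivAt_right (hci.intervalIntegrable 0 t)
        (hci.stronglyMeasurableAtFilter _ _) hci.continuousAt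
    have h2 := ((h1.const_mul (a i : ℂ)).const_mul Complex.I).const_sub (u 0 i)
    refine h2.congr_of_eventuallyEq (Filter.Eventually.of_forall (fun s => ?_))
    exact heq s
  have hexp : ∀ t : ℝ, HasDerivAt (fun s : ℝ => Complex.exp (Complex.I * (a i : ℂ) * s))
      (Complex.exp (Complex.I * (a i : ℂ) * t) * (Complex.I * (a i : ℂ))) t := by
    intro t
    have h1 : HasDerivAt (fun s : ℝ => (s : ℂ)) 1 t := Complex.ofRealCLM.hasDerivAt
    have h2 := (h1.const_mul (Complex.I * (a i : ℂ))).cexp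
    simpa using h2
  have hg : ∀ t : ℝ, HasDerivAt
      (fun s : ℝ => Complex.exp (Complex.I * (a i : ℂ) * s) * u s i) 0 t := by
    intro t
    refine ((hexp t).mul (hd t)).congr_deriv ?_
    ring
  have hconst := is_const_of_deriv_eq_zero (fun t => (hg t).differentiableAt)
    (fun t => (hg t).deriv) t 0
  simp only [Complex.ofReal_zero, mul_zero, Complex.exp_zero, one_mul] at hconst
  rw [← hconst, ← mul_assoc, ← Complex.exp_add]
  simp

lemma integral_cross (c : ℂ) :
    ∫ t in (0 : ℝ)..Real.pi, (c.re * Real.cos (2 * t) + c.im * Real.sin (2 * t)) = 0 := by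
  have h1 : IntervalIntegrable (fun t : ℝ => c.re * Real.cos (2 * t)) volume 0 Real.pi :=
    (by fun_prop : Continuous (fun t : ℝ => c.re * Real.cos (2 * t))).intervalIntegrable _ _
  have h2 : IntervalIntegrable (fun t : ℝ => c.im * Real.sin (2 * t)) volume 0 Real.pi :=
    (by fun_prop : Continuous (fun t : ℝ => c.im * Real.sin (2 * t))).intervalIntegrable _ _
  rw [intervalIntegral.integral_add h1 h2, intervalIntegral.integral_const_mul,
    intervalIntegral.integral_const_mul]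
  rw [intervalIntegral.integral_comp_mul_left (fun x => Real.cos x) (by norm_num),
    intervalIntegral.integral_comp_mul_left (fun x => Real.sin x) (by norm_num)]
  simp [integral_cos, integral_sin]

lemma normSq_combo (p q : ℂ) (θ t : ℝ) :
    ‖p * Complex.exp (-(Complex.I * ((θ + 1 : ℝ) : ℂ) * t))
      + q * Complex.exp (-(Complex.I * ((θ - 1 : ℝ) : ℂ) * t))‖ ^ 2
      = ‖p‖ ^ 2 + ‖q‖ ^ 2 + 2 * ((p * conj q).re * Real.cos (2 * t)
        + (p * conj q).im * Real.sin (2 * t)) := by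
  have h1 : p * Complex.exp (-(Complex.I * ((θ + 1 : ℝ) : ℂ) * t))
      + q * Complex.exp (-(Complex.I * ((θ - 1 : ℝ) : ℂ) * t))
      = Complex.exp ((-(θ - 1) * t : ℝ) * Complex.I) *
        (p * Complex.exp (((-(2 * t) : ℝ) : ℂ) * Complex.I) + q) := by
    rw [mul_add, mul_comm (Complex.exp ((-(θ - 1) * t : ℝ) * Complex.I)) (p * _), mul_assoc p,
      ← Complex.exp_add, mul_comm (Complex.exp ((-(θ - 1) * t : ℝ) * Complex.I)) q]
    congr 3
    · push_cast; ring
    · push_cast; ring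
  rw [h1, norm_mul, Complex.norm_exp_ofReal_mul_I, one_mul]
  rw [← Complex.normSq_eq_norm_sq, ← Complex.normSq_eq_norm_sq, ← Complex.normSq_eq_norm_sq,
    Complex.normSq_apply, Complex.normSq_apply, Complex.normSq_apply]
  have h2 : Complex.exp (((-(2 * t) : ℝ) : ℂ) * Complex.I)
      = ⟨Real.cos (2 * t), -Real.sin (2 * t)⟩ := by
    apply Complex.ext
    · rw [Complex.exp_ofReal_mul_I_re, Real.cos_neg]
    · rw [Complex.exp_ofReal_mul_I_im, Real.sin_neg]
  rw [h2]
  have h3 := Real.sin_sq_add_cos_sq (2 * t)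
  simp
  linear_combination (p.re ^ 2 + p.im ^ 2) * h3

lemma observable : SchrodingerObservable (diagPMap aa) BB Real.pi := by
  have hpi := Real.pi_pos
  refine ⟨1 / Real.pi, by positivity, ?_⟩
  intro u hu
  rw [adjoint_BB]
  have hcoord := coord_solution aa u hu
  obtain ⟨hc, -⟩ := hu
  have hCc : Continuous (fun t => CC (u t)) := CC.continuous.comp hc
  have hn : ∀ (n : ℕ) (t : ℝ), ‖CC (u t) n‖ ^ 2
      = ‖conj (ww (n, true)) * u 0 (n, true)‖ ^ 2 + ‖conj (ww (n, false)) * u 0 (n, false)‖ ^ 2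
        + 2 * (((conj (ww (n, true)) * u 0 (n, true)) *
            conj (conj (ww (n, false)) * u 0 (n, false))).re * Real.cos (2 * t)
          + ((conj (ww (n, true)) * u 0 (n, true)) *
            conj (conj (ww (n, false)) * u 0 (n, false))).im * Real.sin (2 * t)) := by
    intro n t
    rw [← normSq_combo _ _ ((NN n) ^ 2) t, CC_apply, hcoord (n, true) t, hcoord (n, false) t]
    congr 2
    simp only [aa, sg, if_true, Bool.false_eq_true, if_false]
    rw [← sub_eq_add_neg]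
    ring
  have hint : ∀ n : ℕ, ∫ t in (0 : ℝ)..Real.pi, ‖CC (u t) n‖ ^ 2
      = Real.pi * (‖conj (ww (n, true)) * u 0 (n, true)‖ ^ 2
        + ‖conj (ww (n, false)) * u 0 (n, false)‖ ^ 2) := by
    intro n
    simp_rw [hn n]
    rw [intervalIntegral.integral_add (by simp)
      ((by fun_prop : Continuous _).intervalIntegrable _ _),
      intervalIntegral.integral_const_mul, integral_cross, intervalIntegral.integral_const]
    simp
  have hge : ∀ n : ℕ, Real.pi * (‖u 0 (n, true)‖ ^ 2 + ‖u 0 (n, false)‖ ^ 2)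
      ≤ ∫ t in (0 : ℝ)..Real.pi, ‖CC (u t) n‖ ^ 2 := by
    intro n
    rw [hint n]
    have h1 := (ww_normSq (n, true)).1
    have h2 := (ww_normSq (n, false)).1
    rw [norm_mul, norm_mul, mul_pow, mul_pow, RCLike.norm_conj, RCLike.norm_conj]
    have h3 : 0 ≤ ‖u 0 (n, true)‖ ^ 2 := by positivity
    have h4 : 0 ≤ ‖u 0 (n, false)‖ ^ 2 := by positivity
    gcongr
    · nlinarith
    · nlinarith
  have hcn : ∀ n : ℕ, Continuous (fun t => ‖CC (u t) n‖ ^ 2) := by
    intro n
    have : Continuous (fun t => CC (u t) n) :=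
      (lp.evalCLM ℂ (fun _ : ℕ => ℂ) 2 n).continuous.comp hCc
    fun_prop
  have hfin : ∀ s : Finset ℕ, Real.pi * ∑ n ∈ s, (‖u 0 (n, true)‖ ^ 2 + ‖u 0 (n, false)‖ ^ 2)
      ≤ ∫ t in (0 : ℝ)..Real.pi, ‖CC (u t)‖ ^ 2 := by
    intro s
    calc Real.pi * ∑ n ∈ s, (‖u 0 (n, true)‖ ^ 2 + ‖u 0 (n, false)‖ ^ 2)
        = ∑ n ∈ s, Real.pi * (‖u 0 (n, true)‖ ^ 2 + ‖u 0 (n, false)‖ ^ 2) := by
          rw [Finset.mul_sum]
      _ ≤ ∑ n ∈ s, ∫ t in (0 : ℝ)..Real.pi, ‖CC (u t) n‖ ^ 2 :=
          Finset.sum_le_sum (fun n _ => hge n)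
      _ = ∫ t in (0 : ℝ)..Real.pi, ∑ n ∈ s, ‖CC (u t) n‖ ^ 2 := by
          rw [intervalIntegral.integral_finsetSum]
          intro n _
          exact (hcn n).intervalIntegrable _ _
      _ ≤ ∫ t in (0 : ℝ)..Real.pi, ‖CC (u t)‖ ^ 2 := by
          apply intervalIntegral.integral_mono_on hpi.le
          · exact (continuous_finsetSum s (fun n _ => hcn n)).intervalIntegrable _ _
          · exact (by fun_prop : Continuous (fun t => ‖CC (u t)‖ ^ 2)).intervalIntegrable _ _
          · intro t _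
            exact sum_le_hasSum s (fun i _ => by positivity) (hasSum_norm_sq (CC (u t)))
  have hfin2 : ∀ s : Finset (ℕ × Bool), ∑ i ∈ s, ‖u 0 i‖ ^ 2
      ≤ 1 / Real.pi * ∫ t in (0 : ℝ)..Real.pi, ‖CC (u t)‖ ^ 2 := by
    intro s
    have h1 : ∑ i ∈ s, ‖u 0 i‖ ^ 2
        ≤ ∑ i ∈ (s.image Prod.fst) ×ˢ (Finset.univ : Finset Bool), ‖u 0 i‖ ^ 2 := by
      apply Finset.sum_le_sum_of_subset_of_nonneg
      · rintro ⟨n, b⟩ h
        rw [Finset.mem_product]
        exact ⟨Finset.mem_image_of_mem _ h, Finset.mem_univ _⟩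
      · intro i _ _
        positivity
    rw [Finset.sum_product] at h1
    simp only [Fintype.sum_bool] at h1
    have h2 := hfin (s.image Prod.fst)
    rw [div_mul_eq_mul_div, one_mul, le_div_iff₀ hpi]
    calc _ ≤ (∑ n ∈ s.image Prod.fst, (‖u 0 (n, true)‖ ^ 2 + ‖u 0 (n, false)‖ ^ 2)) * Real.pi := by
          gcongr
      _ ≤ _ := by rw [mul_comm]; exact h2
  exact hasSum_le_of_sum_le (hasSum_norm_sq (u 0)) hfin2

/-! ### Failure of stability -/

/-- The square root of `A`. -/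
noncomputable def ss (i : ℕ × Bool) : ℝ := Real.sqrt (aa i)

lemma ss_sq (i : ℕ × Bool) : (ss i) ^ 2 = aa i := Real.sq_sqrt (aa_nonneg i)

lemma solution (n : ℕ) : IsDampedWaveSolution (diagPMap aa) (diagPMap ss) BB
    (fun t : ℝ => Complex.exp (zz n * t) • pv n 1 1)
    (fun t : ℝ => (Complex.exp (zz n * t) * zz n) • pv n 1 1) := by
  have hexp : ∀ t : ℝ, HasDerivAt (fun s : ℝ => Complex.exp (zz n * s))
      (Complex.exp (zz n * t) * zz n) t := by
    intro t
    have h1 : HasDerivAt (fun s : ℝ => (s : ℂ)) 1 t := Complex.ofRealCLM.hasDerivAt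
    have h2 := (h1.const_mul (zz n)).cexp
    simpa using h2
  constructor
  · intro t _
    exact Submodule.smul_mem _ _ (pv_mem aa n 1 1)
  · intro t _
    exact Submodule.smul_mem _ _ (pv_mem ss n 1 1)
  · intro t _
    exact ((hexp t).smul_const (pv n 1 1)).hasDerivWithinAt
  · intro t _
    have h1 : ∀ c : ℂ, ev (diagPMap ss) (c • pv n 1 1)
        = c • pv n (ss (n, true) : ℂ) (ss (n, false) : ℂ) := by
      intro c
      rw [smul_pv, ev_pv, smul_pv]
      congr 1 <;> ring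
    simp only [h1]
    exact ((hexp t).smul_const _).hasDerivWithinAt
  · intro t _
    have h1 : - ev (diagPMap aa) (Complex.exp (zz n * t) • pv n 1 1)
        - BB (ContinuousLinearMap.adjoint BB ((Complex.exp (zz n * t) * zz n) • pv n 1 1))
        = (Complex.exp (zz n * t) * zz n * zz n) • pv n 1 1 := by
      rw [adjoint_BB, map_smul, map_smul, BBCC_pv, smul_pv, smul_pv, smul_pv, ev_pv]
      have e1 := eigen n true
      have e2 := eigen n false
      apply pv_ext
      · rw [lp.coeFn_sub, Pi.sub_apply, lp.coeFn_neg, Pi.neg_apply, pv_apply_true, pv_apply_true]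
        linear_combination (-Complex.exp (zz n * t)) * e1
      · rw [lp.coeFn_sub, Pi.sub_apply, lp.coeFn_neg, Pi.neg_apply, pv_apply_false,
          pv_apply_false]
        linear_combination (-Complex.exp (zz n * t)) * e2
      · intro m b h
        rw [lp.coeFn_sub, Pi.sub_apply, lp.coeFn_neg, Pi.neg_apply, pv_apply_ne n _ _ m b h,
          pv_apply_ne n _ _ m b h]
        simp
    rw [h1]
    exact (((hexp t).mul_const (zz n)).smul_const (pv n 1 1)).hasDerivWithinAt

lemma normS_sq (n : ℕ) (c : ℂ) : ‖ev (diagPMap ss) (c • pv n 1 1)‖ ^ 2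
    = ‖c‖ ^ 2 * (2 * (NN n) ^ 2) := by
  rw [smul_pv, ev_pv, norm_pv_sq, norm_mul (ss (n, true) : ℂ), norm_mul (ss (n, false) : ℂ),
    mul_pow, mul_pow, Complex.norm_real, Complex.norm_real, Real.norm_eq_abs, Real.norm_eq_abs,
    sq_abs, sq_abs, ss_sq, ss_sq]
  simp only [aa, sg, if_true, Bool.false_eq_true, if_false, mul_one]
  ring

lemma norm_smul_pv_sq (n : ℕ) (c : ℂ) : ‖c • pv n 1 1‖ ^ 2 = ‖c‖ ^ 2 * 2 := by
  rw [smul_pv, norm_pv_sq, mul_one]
  ring

lemma energySeminorm_eq (n : ℕ) (c d : ℂ) :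
    energySeminorm (diagPMap ss) (c • pv n 1 1) (d • pv n 1 1)
      = Real.sqrt (‖c‖ ^ 2 * (2 * (NN n) ^ 2) + ‖d‖ ^ 2 * 2) := by
  rw [energySeminorm, normS_sq, norm_smul_pv_sq]

lemma energyNorm_eq (n : ℕ) (c d : ℂ) :
    energyNorm (diagPMap ss) (c • pv n 1 1) (d • pv n 1 1)
      = Real.sqrt (‖c‖ ^ 2 * (2 * (NN n) ^ 2) + ‖c‖ ^ 2 * 2 + ‖d‖ ^ 2 * 2) := by
  rw [energyNorm, normS_sq, norm_smul_pv_sq, norm_smul_pv_sq]

lemma graphNorm_le (n : ℕ) :
    graphNorm (diagPMap aa) (diagPMap ss) BB ((1 : ℂ) • pv n 1 1) ((zz n) • pv n 1 1)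
      ≤ 6 * (NN n) ^ 2 := by
  have h := NN_ge n
  have hz := zz_norm n
  have h1 : - ev (diagPMap aa) ((1 : ℂ) • pv n 1 1)
        - BB (ContinuousLinearMap.adjoint BB ((zz n) • pv n 1 1))
        = (zz n * zz n) • pv n 1 1 := by
    rw [adjoint_BB, map_smul, map_smul, BBCC_pv, smul_pv, smul_pv, smul_pv, ev_pv]
    have e1 := eigen n true
    have e2 := eigen n false
    apply pv_ext
    · rw [lp.coeFn_sub, Pi.sub_apply, lp.coeFn_neg, Pi.neg_apply, pv_apply_true, pv_apply_true]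
      linear_combination (-1 : ℂ) * e1
    · rw [lp.coeFn_sub, Pi.sub_apply, lp.coeFn_neg, Pi.neg_apply, pv_apply_false,
        pv_apply_false]
      linear_combination (-1 : ℂ) * e2
    · intro m b h
      rw [lp.coeFn_sub, Pi.sub_apply, lp.coeFn_neg, Pi.neg_apply, pv_apply_ne n _ _ m b h,
        pv_apply_ne n _ _ m b h]
      simp
  rw [graphNorm, h1, energyNorm_eq, energyNorm_eq, norm_mul, hz, norm_one]
  have h2 : Real.sqrt (1 ^ 2 * (2 * NN n ^ 2) + 1 ^ 2 * 2 + NN n ^ 2 * 2) ≤ 3 * NN n := by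
    rw [Real.sqrt_le_left (by positivity)]
    nlinarith
  have h3 : Real.sqrt (NN n ^ 2 * (2 * NN n ^ 2) + NN n ^ 2 * 2 + (NN n * NN n) ^ 2 * 2)
      ≤ 3 * (NN n) ^ 2 := by
    rw [Real.sqrt_le_left (by positivity)]
    have : 1 ≤ NN n ^ 2 := by nlinarith
    nlinarith
  nlinarith

lemma not_stable (α : ℝ) (hα : 1 / 2 < α) :
    ¬ StableAtRate (diagPMap aa) (diagPMap ss) BB (fun t => t ^ (-α)) := by
  rintro ⟨C, hC⟩
  -- the inequality at time `4 N²`
  have key : ∀ n : ℕ, 2 * NN n * Real.exp (-1)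
      ≤ C * (4 * (NN n) ^ 2) ^ (-α) * graphNorm (diagPMap aa) (diagPMap ss) BB
        ((1 : ℂ) • pv n 1 1) ((zz n) • pv n 1 1) := by
    intro n
    have h := NN_ge n
    have h1 := hC _ _ (solution n) (4 * (NN n) ^ 2) (by positivity)
    simp only [Complex.ofReal_zero, mul_zero, Complex.exp_zero, one_mul] at h1
    refine le_trans (le_of_eq ?_) h1
    rw [energySeminorm_eq, norm_mul, zz_norm]
    have hexp : ‖Complex.exp (zz n * ((4 * (NN n) ^ 2 : ℝ) : ℂ))‖ = Real.exp (-1) := by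
      rw [Complex.norm_exp, Complex.re_mul_ofReal, zz_re]
      congr 1
      field_simp
    rw [hexp]
    rw [show Real.exp (-1) ^ 2 * (2 * NN n ^ 2) + (Real.exp (-1) * NN n) ^ 2 * 2
      = (2 * NN n * Real.exp (-1)) ^ 2 by ring]
    rw [Real.sqrt_sq (by positivity)]
  have hCpos : 0 ≤ C := by
    by_contra hneg
    push Not at hneg
    have h := NN_ge 0
    have h1 := key 0
    have h2 : 0 < 2 * NN 0 * Real.exp (-1) := by positivity
    have h3 : C * (4 * (NN 0) ^ 2) ^ (-α) * graphNorm (diagPMap aa) (diagPMap ss) BB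
        ((1 : ℂ) • pv 0 1 1) ((zz 0) • pv 0 1 1) ≤ 0 := by
      apply mul_nonpos_of_nonpos_of_nonneg
      · apply mul_nonpos_of_nonpos_of_nonneg hneg.le
        positivity
      · unfold graphNorm energyNorm
        positivity
    linarith
  have key2 : ∀ n : ℕ, Real.exp (-1) ≤ (3 * C) * (NN n) ^ (1 - 2 * α) := by
    intro n
    have h := NN_ge n
    have h0 : 0 < NN n := by linarith
    have h1 := (key n).trans (mul_le_mul_of_nonneg_left (graphNorm_le n) (by positivity))
    have h2 : (4 * (NN n) ^ 2) ^ (-α) ≤ (NN n) ^ (-(2 * α)) := by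
      have e1 : (NN n) ^ (-(2 * α)) = ((NN n) ^ 2) ^ (-α) := by
        rw [← Real.rpow_natCast (NN n) 2, ← Real.rpow_mul h0.le]
        congr 1
        push_cast
        ring
      rw [e1]
      apply Real.rpow_le_rpow_of_nonpos (by positivity) (by nlinarith) (by linarith)
    have h3 : 2 * NN n * Real.exp (-1) ≤ C * (NN n) ^ (-(2 * α)) * (6 * (NN n) ^ 2) := by
      refine h1.trans ?_
      gcongr
    have h4 : (NN n) ^ (1 - 2 * α) = (NN n) ^ (-(2 * α)) * NN n := by
      rw [show 1 - 2 * α = -(2 * α) + 1 by ring, Real.rpow_add h0, Real.rpow_one]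
    rw [h4]
    have h5 : 2 * NN n * Real.exp (-1) ≤ 2 * NN n * (3 * C * (NN n ^ (-(2 * α)) * NN n)) := by
      refine h3.trans (le_of_eq ?_)
      ring
    exact le_of_mul_le_mul_left h5 (by positivity)
  have hlim : Tendsto (fun n : ℕ => (3 * C) * (NN n) ^ (1 - 2 * α)) atTop (𝓝 ((3 * C) * 0)) := by
    apply Tendsto.const_mul
    have h1 : Tendsto (fun n : ℕ => NN n) atTop atTop := by
      unfold NN
      exact tendsto_atTop_add_const_right _ _ tendsto_natCast_atTop_atTop
    have h2 := (tendsto_rpow_neg_atTop (by linarith : 0 < 2 * α - 1)).comp h1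
    refine h2.congr (fun n => ?_)
    simp only [Function.comp]
    congr 1
    ring
  have h := ge_of_tendsto' hlim key2
  have := Real.exp_pos (-1)
  linarith

lemma finite_lt (M : ℝ) : Set.Finite {i : ℕ × Bool | aa i < M} := by
  obtain ⟨K, hK⟩ := exists_nat_gt M
  refine Set.Finite.subset ((Finset.range (K + 1)) ×ˢ (Finset.univ : Finset Bool)).finite_toSet ?_
  rintro ⟨n, b⟩ h
  simp only [Set.mem_ofPred_eq] at h
  simp only [Finset.coe_product, Set.mem_prod, Finset.mem_coe, Finset.mem_range,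
    Finset.mem_univ, and_true]
  by_contra hc
  push Not at hc
  have h1 : ((K : ℝ) + 1) ≤ n := by exact_mod_cast hc
  have h2 : sg b ≥ -1 := by
    unfold sg; split_ifs <;> norm_num
  have h3 : aa (n, b) ≥ (n : ℝ) := by
    unfold aa NN
    simp only
    have : (0 : ℝ) ≤ n := Nat.cast_nonneg n
    nlinarith
  linarith

end System

/-- **The rate `t^{-1/2}` is optimal in the abstract setting.**  There are complex Hilbert spaces
`H`, `Y`, a nonnegative self-adjoint operator `A` on `H` with compact resolvent (with nonnegative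
self-adjoint square root `S = A^{1/2}`) and a bounded operator `B : Y → H` such that the Schrodinger
system `u' + i A u = 0`, `y = B* u` is observable in some time `T > 0`, while the damped wave
system `u'' + A u + B B* u' = 0` is stable at rate `t^{-α}` for no `α > 1/2`. -/
theorem result :
    ∃ (H Y : Type) (_ : NormedAddCommGroup H) (_ : InnerProductSpace ℂ H) (_ : CompleteSpace H)
      (_ : NormedAddCommGroup Y) (_ : InnerProductSpace ℂ Y) (_ : CompleteSpace Y)
      (A S : H →ₗ.[ℂ] H) (B : Y →L[ℂ] H),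
      IsNonnegSelfAdjoint A ∧ HasCompactResolvent A ∧ IsSquareRoot S A ∧
      (∃ T : ℝ, 0 < T ∧ SchrodingerObservable A B T) ∧
      ∀ α : ℝ, 1 / 2 < α → ¬ StableAtRate A S B (fun t => t ^ (-α)) :=
  ⟨L2 (ℕ × Bool), L2 ℕ, inferInstance, inferInstance, inferInstance, inferInstance,
    inferInstance, inferInstance, diagPMap aa, diagPMap ss, BB,
    isNonnegSelfAdjoint_diagPMap aa aa_nonneg, hasCompactResolvent_diagPMap aa aa_nonneg finite_lt,
    isSquareRoot_diagPMap aa aa_nonneg, ⟨Real.pi, Real.pi_pos, observable⟩, not_stable⟩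

end Pool.Agent.Results.MP_4ccfbf_an.SchrodingerRateOptimal
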