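import Pool.Agent.Lib.MP_4ccfbf_an.Final

set_option autoImplicit false

open MeasureTheory Set

namespace Pool.Agent.Results.MP_4ccfbf_an.TorusRateImproved

open Pool.Agent.Lib.MP_4ccfbf_an (msCircle T2 K2 nsq HT)

attribute [local instance] Pool.Agent.Lib.MP_4ccfbf_an.msCircle

/-- Sanity check: the measure used on the circle `ℝ/ℤ` is the volume of Mathlib. -/
theorem msCircle_volume :
    (@MeasureSpace.volume UnitAddCircle msCircle) =
      (@MeasureSpace.volume UnitAddCircle (AddCircle.measureSpace 1)) := by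
  rw [AddCircle.volume_eq_smul_haarAddCircle]
  simp
  rfl

/-- A representative `𝕋² → ℂ` of the class `u ∈ L²(𝕋²)`. -/
noncomputable def fn (u : HT) : T2 → ℂ := u

/-- The `k`-th Fourier coefficient `∫ u(θ) exp(-2πi k·θ) dθ` of `u ∈ L²(𝕋²)`. -/
noncomputable def coef (u : HT) (k : K2) : ℂ :=
  UnitAddTorus.mFourierCoeff (fn u) k

open Classical in
/-- The Fourier multiplier `m(D) u`: the element of `L²(𝕋²)` with Fourier coefficients
`m k * û k` (and `0` if there is no such element). -/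
noncomputable def fmul (m : K2 → ℂ) (u : HT) : HT :=
  if h : ∃ w : HT, ∀ k, coef w k = m k * coef u k then h.choose else 0

/-- `u ∈ H¹(𝕋²)`. -/
def MemH1 (u : HT) : Prop := Summable (fun k : K2 => (1 + nsq k) * ‖coef u k‖ ^ 2)

/-- `u ∈ H²(𝕋²)`. -/
def MemH2 (u : HT) : Prop := Summable (fun k : K2 => (1 + nsq k) ^ 2 * ‖coef u k‖ ^ 2)

/-- `‖u‖²_{H¹} = ∑ (1+|k|²) |û k|²`. -/
noncomputable def normH1sq (u : HT) : ℝ := ∑' k : K2, (1 + nsq k) * ‖coef u k‖ ^ 2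

/-- `‖u‖²_{H²} = ∑ (1+|k|²)² |û k|²`. -/
noncomputable def normH2sq (u : HT) : ℝ := ∑' k : K2, (1 + nsq k) ^ 2 * ‖coef u k‖ ^ 2

/-- The partial derivative `∂u/∂x_j` (coordinates `x = 2πθ`, symbol `i k_j`). -/
noncomputable def pd (j : Fin 2) (u : HT) : HT := fmul (fun k => Complex.I * (k j : ℂ)) u

/-- The Laplacian `Δu` (coordinates `x = 2πθ`, symbol `-|k|²`). -/
noncomputable def lapl (u : HT) : HT := fmul (fun k => -(nsq k : ℂ)) u

/-- `f : [0,∞) → L²(𝕋²)` has the derivative `f'` at `t` (one-sided at `t = 0`). -/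
def HasDerivL2 (f : ℝ → HT) (f' : HT) (t : ℝ) : Prop := HasDerivWithinAt f f' (Ici 0) t

/-- `w = b v` almost everywhere. -/
def IsMul (b : T2 → ℝ) (v w : HT) : Prop :=
  ∀ᵐ z : T2, fn w z = (b z : ℂ) * fn v z

/-- `(u, v)`, `v = ∂_t u`, is a classical solution on `[0,∞)` of the damped wave equation
`∂_t² u - Δ u + b ∂_t u = 0` on the torus: `u(t) ∈ H²`, `v(t) ∈ H¹`, `u' = v` in `H¹` and
`v' = Δu - b v` in `L²`. -/
structure IsDampedWave (b : T2 → ℝ) (u v : ℝ → HT) : Prop where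
  memH2 : ∀ t : ℝ, 0 ≤ t → MemH2 (u t)
  memH1 : ∀ t : ℝ, 0 ≤ t → MemH1 (v t)
  deriv_u : ∀ t : ℝ, 0 ≤ t → HasDerivL2 u (v t) t
  deriv_grad : ∀ t : ℝ, 0 ≤ t → ∀ j : Fin 2, HasDerivL2 (fun s => pd j (u s)) (pd j (v t)) t
  deriv_v : ∀ t : ℝ, 0 ≤ t → ∃ w : HT, IsMul b (v t) w ∧ HasDerivL2 v (lapl (u t) - w) t

/-- The energy `½ (‖∇u‖² + ‖v‖²)`. -/
noncomputable def energy (u v : HT) : ℝ := (1 / 2) * (‖pd 0 u‖ ^ 2 + ‖pd 1 u‖ ^ 2 + ‖v‖ ^ 2)

/-- The damped wave equation with damping `b` decays at rate `f(t)`: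
`E(u,t) ≤ C f(t)² (‖u₀‖²_{H²} + ‖u₁‖²_{H¹})`. -/
def DecaysAtRate (b : T2 → ℝ) (f : ℝ → ℝ) : Prop :=
  ∃ C : ℝ, ∀ u v : ℝ → HT, IsDampedWave b u v → ∀ t : ℝ, 0 < t →
    energy (u t) (v t) ≤ C * (f t) ^ 2 * (normH2sq (u 0) + normH1sq (v 0))

theorem coef_eq : coef = Pool.Agent.Lib.MP_4ccfbf_an.co := by
  funext u k
  rw [coef, fn, Pool.Agent.Lib.MP_4ccfbf_an.co, UnitAddTorus.mFourierBasis_repr]

theorem fmul_eq : fmul = Pool.Agent.Lib.MP_4ccfbf_an.fmul := by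
  funext m u
  unfold fmul Pool.Agent.Lib.MP_4ccfbf_an.fmul
  have h := coef_eq
  revert h
  generalize coef = f
  rintro rfl
  rfl

theorem pd_eq : pd = Pool.Agent.Lib.MP_4ccfbf_an.pd := by
  funext j u
  simp only [pd, Pool.Agent.Lib.MP_4ccfbf_an.pd, fmul_eq]

theorem lapl_eq : lapl = Pool.Agent.Lib.MP_4ccfbf_an.lapl := by
  funext u
  simp only [lapl, Pool.Agent.Lib.MP_4ccfbf_an.lapl, fmul_eq]

theorem wave_of (b : T2 → ℝ) (u v : ℝ → HT) (h : IsDampedWave b u v) :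
    Pool.Agent.Lib.MP_4ccfbf_an.IsDampedWave b u v := by
  obtain ⟨h1, h2, h3, h4, h5⟩ := h
  simp only [MemH2, MemH1, coef_eq, pd_eq, lapl_eq] at h1 h2 h4 h5
  exact ⟨h1, h2, h3, h4, h5⟩

/-- For every `b ∈ L^∞(𝕋²)`, `b ≥ 0`, with `b ≥ c > 0` on a nonempty open set `Ω`, there is
`α > 1/2` such that the damped wave equation with damping `b` decays at rate `t^{-α}`. -/
theorem result (b : T2 → ℝ) (hb : AEStronglyMeasurable b (volume : Measure T2)) (M : ℝ)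
    (hbM : ∀ᵐ z : T2, b z ≤ M) (hb0 : ∀ᵐ z : T2, 0 ≤ b z) (Ω : Set T2) (hΩ : IsOpen Ω)
    (hne : Ω.Nonempty) (c : ℝ) (hc : 0 < c) (hbc : ∀ᵐ z : T2, z ∈ Ω → c ≤ b z) :
    ∃ α : ℝ, 1 / 2 < α ∧ DecaysAtRate b (fun t => t ^ (-α)) := by
  obtain ⟨α, hα, C, hC⟩ :=
    Pool.Agent.Lib.MP_4ccfbf_an.main_result b hb M hbM hb0 Ω hΩ hne c hc hbc
  refine ⟨α, hα, C, fun u v huv t ht => ?_⟩
  have h := hC u v (wave_of b u v huv) t ht
  simp only [energy, normH2sq, normH1sq, coef_eq, pd_eq]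
  exact h

end Pool.Agent.Results.MP_4ccfbf_an.TorusRateImproved
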